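import Mathlib
import Pool.Agent.K3h53.UG.Stm5

/-! UG project (brick NORM6): elimination, several equations. -/

set_option autoImplicit false

namespace Pool.Agent.K3h72.UG

open MvPolynomial Pool.Agent.K3h53.UG

/-- **Brick NORM6.** -/
theorem t_NORM6 : S_NORM6 := by
  classical
  intro n s r e σ I hI hK hinj G hG
  haveI := hI
  obtain ⟨z, hz⟩ : ∃ z : Fin n → (MvPolynomial (Fin n) ℂ ⧸ I),
      z = fun i => Ideal.Quotient.mk I (X i) := ⟨_, rfl⟩
  have haev : ∀ f, aeval z f = Ideal.Quotient.mk I f := by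
    intro f
    have h1 : (aeval z : _ →ₐ[ℂ] _) = Ideal.Quotient.mkₐ ℂ I := by
      refine MvPolynomial.algHom_ext fun c => ?_
      rw [aeval_X, hz]
      rfl
    rw [h1]
    rfl
  obtain ⟨l, hl⟩ : ∃ l : Fin s → (MvPolynomial (Fin n) ℂ ⧸ I),
      l = fun j => Ideal.Quotient.mk I (lsub e σ (X j)) := ⟨_, rfl⟩
  have haevl : ∀ h, aeval l h = Ideal.Quotient.mk I (lsub e σ h) := by
    intro f
    have h1 : (aeval l : _ →ₐ[ℂ] _) = (Ideal.Quotient.mkₐ ℂ I).comp (lsub e σ) := by
      refine MvPolynomial.algHom_ext fun c => ?_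
      rw [aeval_X, hl]
      rfl
    rw [h1]
    rfl
  have hli : AlgebraicIndependent ℂ l := by
    rw [algebraicIndependent_iff]
    intro h hh
    by_contra hne
    rw [haevl, Ideal.Quotient.eq_zero_iff_mem] at hh
    exact hinj h hne hh
  -- the generators
  have htop : Algebra.adjoin ℂ (Set.range z) = ⊤ := by
    rw [Algebra.adjoin_range_eq_range_aeval, AlgHom.range_eq_top]
    intro b
    obtain ⟨f, rfl⟩ := Ideal.Quotient.mk_surjective b
    exact ⟨f, haev f⟩
  have halg0 : Algebra.IsAlgebraic (Algebra.adjoin ℂ (Set.range z))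
      (MvPolynomial (Fin n) ℂ ⧸ I) := by
    constructor
    intro b
    have hb : b ∈ Algebra.adjoin ℂ (Set.range z) := by rw [htop]; trivial
    exact isAlgebraic_algebraMap (⟨b, hb⟩ : Algebra.adjoin ℂ (Set.range z))
  obtain ⟨t, htz, hbt⟩ := exists_isTranscendenceBasis_subset (R := ℂ) (Set.range z)
  have hfin : t.Finite := (Set.finite_range z).subset htz
  haveI : Fintype t := hfin.fintype
  choose g hg using fun a : t => htz a.2
  have hginj : Function.Injective g := by
    intro a b hab
    apply Subtype.ext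
    rw [← hg a, ← hg b, hab]
  have hcard : Fintype.card t ≤ s := by
    by_contra hcon
    push Not at hcon
    have h1 : s + 1 ≤ (Finset.univ.image g).card := by
      rw [Finset.card_image_of_injective _ hginj, Finset.card_univ]
      exact hcon
    obtain ⟨K, hKs, hKc⟩ := Finset.exists_subset_card_eq h1
    obtain ⟨F, hFI, hF0, hFv⟩ := hK K hKc
    have h2 : ∀ k : (K : Set (Fin n)), ∃ a : t, g a = k := by
      intro k
      have := hKs k.2
      rw [Finset.mem_image] at this
      obtain ⟨a, -, ha⟩ := this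
      exact ⟨a, ha⟩
    choose κ hκ using h2
    have hκi : Function.Injective κ := by
      intro a b hab
      apply Subtype.ext
      rw [← hκ a, ← hκ b, hab]
    have h3 := hbt.1.comp κ hκi
    have h4 : ((fun a : t => (a : MvPolynomial (Fin n) ℂ ⧸ I)) ∘ κ) =
        fun k : (K : Set (Fin n)) => z k := by
      funext k
      change ((κ k : t) : MvPolynomial (Fin n) ℂ ⧸ I) = z k
      rw [← hκ k, hg]
    have h5 : AlgebraicIndependent ℂ (fun k : (K : Set (Fin n)) => z k) := by
      rw [← h4]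
      exact h3
    rw [algebraicIndependent_iff] at h5
    obtain ⟨F1, rfl⟩ := exists_rename_eq_of_vars_subset_range F
      (Subtype.val : ↥(K : Set (Fin n)) → _) Subtype.val_injective
      (by rw [Subtype.range_coe]; exact_mod_cast hFv)
    have h6 : aeval z (rename (Subtype.val : ↥(K : Set (Fin n)) → Fin n) F1) = 0 := by
      rw [haev, Ideal.Quotient.eq_zero_iff_mem]
      exact hFI
    rw [aeval_rename] at h6
    apply hF0
    rw [h5 F1 h6, map_zero]
  have htr : Algebra.trdeg ℂ (MvPolynomial (Fin n) ℂ ⧸ I) ≤ Cardinal.mk (Fin s) := by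
    rw [← hbt.cardinalMk_eq_trdeg, Cardinal.mk_fintype, Cardinal.mk_fin]
    exact_mod_cast hcard
  have hbl := hli.isTranscendenceBasis_of_trdeg_le_of_finite htr
  have halg := hbl.isAlgebraic
  have hGne : Ideal.Quotient.mk I G ≠ 0 := by
    rw [Ne, Ideal.Quotient.eq_zero_iff_mem]
    exact hG
  obtain ⟨a, ha, q, hq⟩ := (halg.1 (Ideal.Quotient.mk I G)).exists_nonzero_dvd
    (mem_nonZeroDivisors_of_ne_zero hGne)
  obtain ⟨G2, rfl⟩ := Ideal.Quotient.mk_surjective q
  have ha2 : (a : MvPolynomial (Fin n) ℂ ⧸ I) ∈ (aeval l : MvPolynomial (Fin s) ℂ →ₐ[ℂ] _).range := by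
    rw [← Algebra.adjoin_range_eq_range_aeval]
    exact a.2
  obtain ⟨h, hh⟩ := ha2
  refine ⟨h, G2, ?_, ?_⟩
  · rintro rfl
    apply ha
    apply Subtype.ext
    rw [← hh]
    exact map_zero _
  · rw [← Ideal.Quotient.eq_zero_iff_mem, map_sub, map_mul, ← hq, ← haevl, sub_eq_zero]
    exact hh.symm

end Pool.Agent.K3h72.UG
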