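import Mathlib
import Pool.Agent.K3h53.UG.Stm5

/-! UG project (brick TOP6): weighted leading forms. -/

set_option autoImplicit false

namespace Pool.Agent.K3h72.UG

open MvPolynomial Filter Topology Metric Set Pool.Agent.K3h53.UG

/-- the value of a monomial of `h` -/
noncomputable def tm {s : ℕ} (h : MvPolynomial (Fin s) ℂ) (u : Fin s → ℂ) (m : Fin s →₀ ℕ) : ℂ :=
  coeff m h * ∏ j, u j ^ m j

theorem weight_eq {s : ℕ} (v : Fin s → ℕ) (m : Fin s →₀ ℕ) :
    Finsupp.weight v m = ∑ j, m j * v j := by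
  rw [Finsupp.weight_apply, Finsupp.sum_fintype _ _ (by simp)]
  simp

theorem eval_scale {s : ℕ} (v : Fin s → ℕ) (h : MvPolynomial (Fin s) ℂ) (R : ℂ)
    (u l : Fin s → ℂ) (hl : ∀ j, l j = R ^ v j * u j) :
    eval l h = ∑ m ∈ h.support, R ^ Finsupp.weight v m * tm h u m := by
  rw [eval_eq']
  refine Finset.sum_congr rfl fun m _ => ?_
  have h1 : ∏ j, l j ^ m j = R ^ Finsupp.weight v m * ∏ j, u j ^ m j := by
    rw [weight_eq, ← Finset.prod_pow_eq_pow_sum, ← Finset.prod_mul_distrib]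
    refine Finset.prod_congr rfl fun j _ => ?_
    rw [hl, mul_pow, ← pow_mul, mul_comm (v j)]
  rw [h1]
  unfold tm
  ring

theorem eval_wtop {s : ℕ} (v : Fin s → ℕ) (h : MvPolynomial (Fin s) ℂ) (u : Fin s → ℂ) :
    eval u (wtop v h) =
      ∑ m ∈ h.support.filter (fun m => Finsupp.weight v m = weightedTotalDegree v h), tm h u m := by
  unfold wtop
  rw [weightedHomogeneousComponent_apply, map_sum]
  refine Finset.sum_congr rfl fun m _ => ?_
  rw [eval_monomial, Finsupp.prod_fintype _ _ (by simp)]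
  rfl

theorem tm_le {s : ℕ} (h : MvPolynomial (Fin s) ℂ) (u : Fin s → ℂ) (B : ℝ)
    (hu : ∀ j, ‖u j‖ ≤ B) (m : Fin s →₀ ℕ) : ‖tm h u m‖ ≤ ‖coeff m h‖ * ∏ j, B ^ m j := by
  unfold tm
  rw [norm_mul, norm_prod]
  refine mul_le_mul_of_nonneg_left ?_ (norm_nonneg _)
  refine Finset.prod_le_prod (fun j _ => norm_nonneg _) fun j _ => ?_
  rw [norm_pow]
  exact pow_le_pow_left₀ (norm_nonneg _) (hu j) _

theorem wtop_ne {s : ℕ} (v : Fin s → ℕ) (h : MvPolynomial (Fin s) ℂ) (h0 : h ≠ 0) :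
    wtop v h ≠ 0 := by
  have hne : h.support.Nonempty := by
    rwa [Finset.nonempty_iff_ne_empty, Ne, support_eq_empty]
  obtain ⟨m, hm, hmax⟩ := Finset.exists_mem_eq_sup h.support hne (fun m => Finsupp.weight v m)
  intro hz
  have h1 := congrArg (coeff m) hz
  unfold wtop at h1
  rw [coeff_weightedHomogeneousComponent, coeff_zero] at h1
  have h2 : Finsupp.weight v m = weightedTotalDegree v h := hmax.symm
  rw [if_pos h2] at h1
  exact (mem_support_iff.1 hm) h1

/-- **Brick TOP6.** -/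
theorem t_TOP6 : S_TOP6 := by
  classical
  intro s v hv h h0
  refine ⟨wtop_ne v h h0, fun lam hlam => ?_⟩
  obtain ⟨L, hL⟩ : ∃ L : ℝ, L = ‖eval lam (wtop v h)‖ := ⟨_, rfl⟩
  have hLpos : 0 < L := by rw [hL]; exact norm_pos_iff.2 hlam
  obtain ⟨D, hD⟩ : ∃ D : ℕ, D = weightedTotalDegree v h := ⟨_, rfl⟩
  -- continuity
  have hcont : Continuous fun u : Fin s → ℂ => ‖eval u (wtop v h)‖ :=
    (MvPolynomial.continuous_eval _).norm
  have hev : ∀ᶠ u in 𝓝 lam, L / 2 < ‖eval u (wtop v h)‖ :=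
    hcont.continuousAt.eventually (lt_mem_nhds (by change L / 2 < ‖eval lam (wtop v h)‖; rw [← hL]; linarith))
  obtain ⟨ε₁, hε₁, hball⟩ := Metric.eventually_nhds_iff_ball.1 hev
  obtain ⟨B, hB⟩ : ∃ B : ℝ, B = ‖lam‖ + 1 := ⟨_, rfl⟩
  obtain ⟨A, hA⟩ : ∃ A : ℝ, A = ∑ m ∈ h.support, ‖coeff m h‖ * ∏ j, B ^ m j := ⟨_, rfl⟩
  have hB0 : 0 ≤ B := by rw [hB]; positivity
  have hA0 : 0 ≤ A := by
    rw [hA]
    exact Finset.sum_nonneg fun m _ =>
      mul_nonneg (norm_nonneg _) (Finset.prod_nonneg fun j _ => pow_nonneg hB0 _)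
  refine ⟨min ε₁ 1, L / 4, max 1 (4 * A / L), lt_min hε₁ one_pos, by linarith, le_max_left _ _,
    fun R hR l hl => ?_⟩
  have hR1 : 1 ≤ R := (le_max_left _ _).trans hR
  have hR0 : 0 < R := by linarith
  have hRA : A ≤ R * L / 4 := by
    have := (le_max_right _ _).trans hR
    rw [div_le_iff₀ hLpos] at this
    linarith
  obtain ⟨u, hu⟩ : ∃ u : Fin s → ℂ, u = fun j => l j / (R : ℂ) ^ v j := ⟨_, rfl⟩
  have hRc : (R : ℂ) ≠ 0 := by exact_mod_cast hR0.ne'
  have hlu : ∀ j, l j = (R : ℂ) ^ v j * u j := by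
    intro j
    rw [hu]
    field_simp
  have hdist : ∀ j, ‖u j - lam j‖ < min ε₁ 1 := by
    intro j
    have h1 : dist (l j) (((R ^ v j : ℝ) : ℂ) * lam j) < min ε₁ 1 * R :=
      lt_of_le_of_lt (dist_le_pi_dist l (fun j => ((R ^ v j : ℝ) : ℂ) * lam j) j) (mem_ball.1 hl)
    rw [dist_eq_norm, hlu j] at h1
    have h2 : (R : ℂ) ^ v j * u j - ((R ^ v j : ℝ) : ℂ) * lam j =
        (R : ℂ) ^ v j * (u j - lam j) := by
      push_cast
      ring
    rw [h2, norm_mul, norm_pow, Complex.norm_real, Real.norm_of_nonneg hR0.le] at h1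
    have h3 : R * ‖u j - lam j‖ ≤ R ^ v j * ‖u j - lam j‖ := by
      refine mul_le_mul_of_nonneg_right ?_ (norm_nonneg _)
      calc R = R ^ 1 := (pow_one R).symm
        _ ≤ R ^ v j := pow_le_pow_right₀ hR1 (hv j)
    have h4 : R * ‖u j - lam j‖ < R * min ε₁ 1 := by linarith
    exact lt_of_mul_lt_mul_left h4 hR0.le
  have hub : u ∈ ball lam ε₁ := by
    rw [mem_ball, dist_pi_lt_iff hε₁]
    intro j
    rw [dist_eq_norm]
    exact (hdist j).trans_le (min_le_left _ _)
  have huB : ∀ j, ‖u j‖ ≤ B := by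
    intro j
    have h1 : ‖u j‖ ≤ ‖lam j‖ + ‖u j - lam j‖ := by
      have := norm_add_le (lam j) (u j - lam j)
      rwa [add_sub_cancel] at this
    have h2 := norm_le_pi_norm lam j
    have h3 := (hdist j).le.trans (min_le_right _ _)
    linarith
  have hgt := hball u hub
  -- the splitting
  have hsplit : eval l h = (R : ℂ) ^ D * eval u (wtop v h) +
      ∑ m ∈ h.support.filter (fun m => ¬ Finsupp.weight v m = D),
        (R : ℂ) ^ Finsupp.weight v m * tm h u m := by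
    rw [eval_scale v h R u l hlu, eval_wtop,
      ← Finset.sum_filter_add_sum_filter_not h.support (fun m => Finsupp.weight v m = D),
      Finset.mul_sum, ← hD]
    congr 1
    refine Finset.sum_congr rfl fun m hm => ?_
    rw [(Finset.mem_filter.1 hm).2]
  obtain ⟨E, hE⟩ : ∃ E : ℂ, E = ∑ m ∈ h.support.filter (fun m => ¬ Finsupp.weight v m = D),
        (R : ℂ) ^ Finsupp.weight v m * tm h u m := ⟨_, rfl⟩
  rw [← hE] at hsplit
  have hRD : 0 < R ^ D := pow_pos hR0 D
  have hEle : R * ‖E‖ ≤ R ^ D * A := by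
    have h1 : R * ‖E‖ ≤ ∑ m ∈ h.support.filter (fun m => ¬ Finsupp.weight v m = D),
        R ^ D * (‖coeff m h‖ * ∏ j, B ^ m j) := by
      rw [hE]
      refine (mul_le_mul_of_nonneg_left (norm_sum_le _ _) hR0.le).trans ?_
      rw [Finset.mul_sum]
      refine Finset.sum_le_sum fun m hm => ?_
      rw [Finset.mem_filter] at hm
      rw [norm_mul, norm_pow, Complex.norm_real, Real.norm_of_nonneg hR0.le, ← mul_assoc]
      have h2 : Finsupp.weight v m + 1 ≤ D := by
        have h3 : Finsupp.weight v m ≤ D := by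
          rw [hD]
          exact le_weightedTotalDegree v hm.1
        omega
      have h4 : R * R ^ Finsupp.weight v m ≤ R ^ D := by
        rw [← pow_succ']
        exact pow_le_pow_right₀ hR1 h2
      exact mul_le_mul h4 (tm_le h u B huB m) (norm_nonneg _) hRD.le
    refine h1.trans ?_
    rw [← Finset.mul_sum]
    refine mul_le_mul_of_nonneg_left ?_ hRD.le
    rw [hA]
    refine Finset.sum_le_sum_of_subset_of_nonneg (Finset.filter_subset _ _) fun m _ _ => ?_
    exact mul_nonneg (norm_nonneg _) (Finset.prod_nonneg fun j _ => pow_nonneg hB0 _)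
  have hmain : R * (R ^ D * (L / 2)) ≤ R * ‖eval l h‖ + R * ‖E‖ := by
    rw [← mul_add]
    refine mul_le_mul_of_nonneg_left ?_ hR0.le
    have h1 : (R : ℂ) ^ D * eval u (wtop v h) = eval l h - E := by rw [hsplit]; ring
    have h2 : R ^ D * ‖eval u (wtop v h)‖ ≤ ‖eval l h‖ + ‖E‖ := by
      have h3 := norm_sub_le (eval l h) E
      rwa [← h1, norm_mul, norm_pow, Complex.norm_real, Real.norm_of_nonneg hR0.le] at h3
    refine le_trans ?_ h2
    exact mul_le_mul_of_nonneg_left hgt.le hRD.le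
  have hfin : R * (L / 4) ≤ R * ‖eval l h‖ := by
    have h1 : R ^ D * A ≤ R ^ D * (R * L / 4) := mul_le_mul_of_nonneg_left hRA hRD.le
    have h2 : (1 : ℝ) ≤ R ^ D := one_le_pow₀ hR1
    have h3 : 0 ≤ (R ^ D - 1) * (R * L / 4) :=
      mul_nonneg (by linarith) (by positivity)
    nlinarith
  exact le_of_mul_le_mul_left hfin hR0

end Pool.Agent.K3h72.UG
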